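import Mathlib

/-!
A nontrivial minimal system with the average shadowing property (MP_883b72_an).
-/

open Filter Topology Finset

namespace Pool.Agent.N343.AM

/-- Average shadowing property. -/
def ASP {X : Type} [MetricSpace X] (f : X → X) : Prop :=
  ∀ ε : ℝ, 0 < ε → ∃ δ : ℝ, 0 < δ ∧ ∀ x : ℕ → X,
    (∃ N : ℕ, 0 < N ∧ ∀ n ≥ N, ∀ k : ℕ,
      (∑ i ∈ range n, dist (f (x (i + k))) (x (i + k + 1))) / n < δ) →
    ∃ y : X, limsup (fun n : ℕ => (∑ i ∈ range n, dist (f^[i] y) (x i)) / n) atTop < ε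

/-- Minimality: no nonempty proper closed subset is mapped into itself. -/
def MinimalMap {X : Type} [MetricSpace X] (f : X → X) : Prop :=
  ∀ K : Set X, IsClosed K → K.Nonempty → (∀ x ∈ K, f x ∈ K) → K = Set.univ

/-! ### words -/

abbrev Wd : Type := List Bool

/-- concatenations of words of `W` -/
def star (W : Set Wd) : Set Wd := {s | ∃ l : List Wd, (∀ w ∈ l, w ∈ W) ∧ s = l.flatten}

/-- factors of concatenations -/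
def Fac (W : Set Wd) : Set Wd := {v | ∃ a b : Wd, a ++ v ++ b ∈ star W}

/-- suffixes of concatenations -/
def Suf (W : Set Wd) : Set Wd := {v | ∃ a : Wd, a ++ v ∈ star W}

/-- number of differences of two words before position `n` -/
def hl (u v : Wd) (n : ℕ) : ℕ := ((range n).filter (fun i => u[i]? ≠ v[i]?)).card

/-- number of differences of two sequences before position `n` -/
def hs (x y : ℕ → Bool) (n : ℕ) : ℕ := ((range n).filter (fun i => x i ≠ y i)).card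

/-- the window of length `n` of `x` at position `i` -/
def win (x : ℕ → Bool) (i n : ℕ) : Wd := (List.range n).map (fun j => x (i + j))

structure Lv (W : Set Wd) (m : ℕ) : Prop where
  m1 : 1 ≤ m
  len : ∀ w ∈ W, w.length = m ∨ w.length = m + 1
  ex0 : ∃ w ∈ W, w.length = m
  ex1 : ∃ w ∈ W, w.length = m + 1

/-- words of the next level -/
def nxt (W : Set Wd) (P : Wd) (M : ℕ) : Set Wd :=
  {u | (u.length = M ∨ u.length = M + 1) ∧ ∃ v ∈ star W, u = P ++ v}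

/-- `D` of a level -/
def DD (P : Wd) (m : ℕ) : ℕ := P.length + 2 * (m ^ 2 + m + 1)

structure Sys (W : ℕ → Set Wd) (P : ℕ → Wd) (m : ℕ → ℕ) : Prop where
  w0 : W 0 = {w | w.length = 1 ∨ w.length = 2}
  m0 : m 0 = 1
  lv : ∀ k, Lv (W k) (m k)
  ps : ∀ k, P k ∈ star (W k)
  pw : ∀ k, ∀ w ∈ W k, w <:+: P k
  nx : ∀ k, W (k + 1) = nxt (W k) (P k) (m (k + 1))
  gr : ∀ k, 2 ^ (k + 4) * DD (P k) (m k) ≤ m (k + 1)

/-- the subshift -/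
def XX (W : ℕ → Set Wd) : Set (ℕ → Bool) := {x | ∀ n k, win x 0 n ∈ Fac (W k)}

def S_FRO : Prop := ∀ (W : Set Wd) (m : ℕ), Lv W m → ∀ n, m ^ 2 ≤ n → ∃ s ∈ star W, s.length = n

def S_CUT : Prop := ∀ (W : Set Wd) (m : ℕ), Lv W m →
  (∀ s ∈ star W, ∀ n ≤ s.length, ∃ a ∈ star W, ∃ b ∈ star W, s = a ++ b ∧
    a.length ≤ n ∧ n ≤ a.length + m) ∧
  (∀ s ∈ Suf W, ∀ n ≤ s.length, ∃ a : Wd, ∃ b ∈ star W, s = a ++ b ∧
    n ≤ a.length ∧ a.length ≤ n + m) ∧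
  (∀ v ∈ Fac W, ∃ a b : Wd, a.length ≤ m ∧ a ++ v ++ b ∈ star W) ∧
  (∀ v ∈ Fac W, ∃ a b : Wd, a.length ≤ m ∧ b.length ≤ m ∧ a ++ v ++ b ∈ star W)

def S_GRP : Prop := ∀ (W : Set Wd) (m : ℕ) (P : Wd) (M : ℕ), Lv W m → P ∈ star W →
  DD P m ≤ M → ∀ s ∈ Suf W, ∃ G ∈ star (nxt W P M), s.length ≤ G.length ∧
    ∀ n ≤ s.length, hl s G n ≤ DD P m * (n / M + 1)

def S_CLM : Prop := ∀ (W : Set Wd) (m : ℕ) (P : Wd) (M : ℕ), Lv W m → P ∈ star W →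
  16 * DD P m ≤ M → ∀ v ∈ Fac W, ∃ v' ∈ Fac (nxt W P M), v'.length = v.length ∧
    ∀ n ≤ v.length, M * hl v v' n ≤ 8 * DD P m * n

def S_SYS : Prop := ∃ (W : ℕ → Set Wd) (P : ℕ → Wd) (m : ℕ → ℕ), Sys W P m

def S_EMB : Prop := ∀ (W : ℕ → Set Wd) (P : ℕ → Wd) (m : ℕ → ℕ), Sys W P m →
  ∀ l, ∀ v ∈ Fac (W l), 2 * v.length ≤ m (l + 1) →
    (∀ k, v ∈ Fac (W k)) ∧ (∃ x ∈ XX W, win x 0 v.length = v) ∧ (∀ u ∈ W (l + 2), v <:+: u)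

def S_MIN : Prop := ∀ (W : ℕ → Set Wd) (P : ℕ → Wd) (m : ℕ → ℕ), Sys W P m →
  ∀ x ∈ XX W, ∀ x' ∈ XX W, ∀ n, ∃ i, ∀ j < n, x (i + j) = x' j

def S_CLO : Prop := ∀ (W : ℕ → Set Wd) (P : ℕ → Wd) (m : ℕ → ℕ), Sys W P m →
  IsClosed (XX W) ∧ (∀ x ∈ XX W, (fun i => x (i + 1)) ∈ XX W) ∧
  (∃ x ∈ XX W, x 0 = true) ∧ (∃ x ∈ XX W, x 0 = false)

def S_CHN : Prop := ∀ (W : ℕ → Set Wd) (P : ℕ → Wd) (m : ℕ → ℕ), Sys W P m →
  ∀ k l, k ≤ l → ∀ v ∈ Fac (W k), ∃ v' ∈ Fac (W l), v'.length = v.length ∧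
    ∀ n ≤ v.length, 2 ^ k * hl v v' n ≤ n

def S_BLK : Prop := ∀ (W : Set Wd) (m : ℕ) (L : ℕ), Lv W m → 4 * (m ^ 2 + m + 1) ≤ L →
  ∀ u : Wd, u.length = L → ∃ v ∈ star W, v.length = L ∧
    (u ∈ Fac W → hl u v L ≤ 4 * (m ^ 2 + m + 1))

/-- number of positions before `n` with a window of length `L` outside `Fac` -/
noncomputable def badc (F : Set Wd) (z : ℕ → Bool) (L n : ℕ) : ℕ := by
  classical exact ((range n).filter (fun i => win z i L ∉ F)).card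

def S_SHA : Prop := ∀ (W : ℕ → Set Wd) (P : ℕ → Wd) (m : ℕ → ℕ), Sys W P m →
  ∀ k L, 4 * ((m k) ^ 2 + m k + 1) ≤ L → ∀ z : ℕ → Bool, ∃ y ∈ XX W, ∀ n : ℕ,
    (hs z y n : ℝ) ≤ n / 2 ^ k + (n / L + 1) * (4 * ((m k) ^ 2 + m k + 1))
      + L * badc (Fac (W k)) z L n

/-! ### the metric -/

/-- the distance of two sequences -/
noncomputable def dd (x y : ℕ → Bool) : ℝ :=
  (PiNat.metricSpace (E := fun _ : ℕ => Bool)).dist x y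

def S_DIS : Prop := (∀ x y : ℕ → Bool, ∀ j, x j ≠ y j → (1 / 2 : ℝ) ^ j ≤ dd x y) ∧
  (∀ x y : ℕ → Bool, ∀ J : ℕ, (∀ j < J, x j = y j) → dd x y ≤ (1 / 2 : ℝ) ^ J) ∧
  (∀ x y : ℕ → Bool, 0 ≤ dd x y ∧ dd x y ≤ 1)

/-- shift of a sequence -/
def sg (x : ℕ → Bool) : ℕ → Bool := fun i => x (i + 1)

/-- from pseudo-orbits to sequences: bad windows -/
def S_PSO : Prop := ∀ (L : ℕ) (F : Set Wd) (x : ℕ → ℕ → Bool),
  (∀ i, win (x i) 0 L ∈ F) → ∀ n : ℕ,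
  (badc F (fun i => x i 0) L n : ℝ) ≤ 2 ^ L * L * ∑ i ∈ range (n + L), dd (sg (x i)) (x (i + 1))

/-- from Hamming distances back to distances -/
def S_BAK : Prop := ∀ (J : ℕ) (x : ℕ → ℕ → Bool) (y : ℕ → Bool) (n : ℕ),
  ∑ i ∈ range n, dd (sg^[i] y) (x i) ≤ n * (1 / 2) ^ J + J * hs (fun i => x i 0) y (n + J)
    + 2 ^ J * J * J * ∑ i ∈ range (n + J), dd (sg (x i)) (x (i + 1))

def S_ASM : Prop := ∀ (W : ℕ → Set Wd) (P : ℕ → Wd) (m : ℕ → ℕ), Sys W P m →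
  ∀ ε : ℝ, 0 < ε → ∃ δ : ℝ, 0 < δ ∧ ∀ x : ℕ → ℕ → Bool, (∀ i, x i ∈ XX W) →
    (∃ N : ℕ, ∀ n ≥ N, (∑ i ∈ range n, dd (sg (x i)) (x (i + 1))) / n < δ) →
    ∃ y ∈ XX W, ∃ N : ℕ, ∀ n ≥ N, (∑ i ∈ range n, dd (sg^[i] y) (x i)) / n ≤ ε / 2

def S_MAIN : Prop := ∃ (X : Type) (_ : MetricSpace X) (_ : CompactSpace X) (f : X → X),
  Continuous f ∧ MinimalMap f ∧ Nontrivial X ∧ ASP f

end Pool.Agent.N343.AM
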